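import Mathlib

/-!
# Part E of project KL (MP_31f1e8_mp): Dirichlet solutions on a block of barrier sites.
`psi` has the values `1` at `0` and `0` at `q`, `phi` the values `0` and `1`; both solve
`ψ (j + 1) + ψ (j - 1) + a j ψ j = 0` for `1 ≤ j < q`.
-/

namespace Pool.Agent.MP31f1e8.KLE

/-- backward continued fraction -/
noncomputable def rat (a : ℕ → ℝ) (q : ℕ) : ℕ → ℝ
  | 0 => 0
  | k + 1 => -1 / (a (q - (k + 1)) + rat a q k)

/-- the solution on the block with values `1` at `0`, `0` at `q` -/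
noncomputable def psi (a : ℕ → ℝ) (q j : ℕ) : ℝ := ∏ i ∈ Finset.Icc 1 j, rat a q (q - i)

/-- the solution on the block with values `0` at `0`, `1` at `q` -/
noncomputable def phi (a : ℕ → ℝ) (q j : ℕ) : ℝ := psi (fun i => a (q - i)) q (q - j)

/-- barrier sites -/
def Bar (q : ℕ) (κ a : ℕ → ℝ) : Prop := ∀ j, 1 ≤ j → j < q → 1 ≤ κ j ∧ κ j + 1 ≤ |a j|

theorem Bar.refl {q : ℕ} {κ a : ℕ → ℝ} (h : Bar q κ a) : Bar q (fun i => κ (q - i)) (fun i => a (q - i)) :=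
  fun j h1 h2 => h (q - j) (by omega) (by omega)

theorem rat_bd {q : ℕ} {κ a : ℕ → ℝ} (h : Bar q κ a) (k : ℕ) (hk : k < q) :
    |rat a q k| ≤ 1 ∧ (1 ≤ k → |rat a q k| ≤ (κ (q - k))⁻¹ ∧ a (q - k) + rat a q (k - 1) ≠ 0) := by
  induction k with
  | zero => exact ⟨by simp [rat], fun h => absurd h (by norm_num)⟩
  | succ k ih =>
    obtain ⟨h1, -⟩ := ih (by omega)
    obtain ⟨h2, h3⟩ := h (q - (k + 1)) (by omega) (by omega)
    have h4 : κ (q - (k + 1)) ≤ |a (q - (k + 1)) + rat a q k| := by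
      have h5 : |a (q - (k + 1))| ≤ |a (q - (k + 1)) + rat a q k| + |rat a q k| := by
        calc |a (q - (k + 1))| = |(a (q - (k + 1)) + rat a q k) - rat a q k| := by congr 1; ring
          _ ≤ _ := abs_sub _ _
      linarith
    have h6 : |rat a q (k + 1)| ≤ (κ (q - (k + 1)))⁻¹ := by
      have e : rat a q (k + 1) = -1 / (a (q - (k + 1)) + rat a q k) := rfl
      rw [e, abs_div, abs_neg, abs_one, one_div]
      exact inv_anti₀ (by linarith) h4
    refine ⟨h6.trans (inv_le_one_of_one_le₀ h2), fun _ => ⟨h6, ?_⟩⟩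
    rw [Nat.add_sub_cancel]
    intro h7
    rw [h7, abs_zero] at h4
    linarith

theorem psi_zero (a : ℕ → ℝ) (q : ℕ) : psi a q 0 = 1 := by
  simp [psi]

theorem psi_end (a : ℕ → ℝ) {q : ℕ} (hq : 1 ≤ q) : psi a q q = 0 := by
  unfold psi
  refine Finset.prod_eq_zero (i := q) (Finset.mem_Icc.2 ⟨hq, le_rfl⟩) ?_
  rw [Nat.sub_self]
  rfl

theorem psi_succ (a : ℕ → ℝ) (q j : ℕ) : psi a q (j + 1) = psi a q j * rat a q (q - (j + 1)) := by
  unfold psi
  rw [← Finset.insert_Icc_right_eq_Icc_add_one (by omega), Finset.prod_insert (by simp), mul_comm]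

theorem psi_eq {q : ℕ} {κ a : ℕ → ℝ} (h : Bar q κ a) (j : ℕ) (hj : 1 ≤ j) (hjq : j < q) :
    psi a q (j + 1) + psi a q (j - 1) + a j * psi a q j = 0 := by
  obtain ⟨i, rfl⟩ : ∃ i, j = i + 1 := ⟨j - 1, by omega⟩
  obtain ⟨-, h1⟩ := rat_bd h (q - (i + 1)) (by omega)
  obtain ⟨-, h2⟩ := h1 (by omega)
  have e1 : q - (q - (i + 1)) = i + 1 := by omega
  have e2 : q - (i + 1) - 1 = q - (i + 1 + 1) := by omega
  rw [e1, e2] at h2
  have e3 : rat a q (q - (i + 1)) = -1 / (a (i + 1) + rat a q (q - (i + 1 + 1))) := by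
    obtain ⟨k, hk⟩ : ∃ k, q - (i + 1) = k + 1 := ⟨q - (i + 1) - 1, by omega⟩
    have e4 : q - (i + 1 + 1) = k := by omega
    rw [hk, e4]
    show -1 / (a (q - (k + 1)) + rat a q k) = _
    rw [← hk, e1]
  rw [Nat.add_sub_cancel, psi_succ a q (i + 1), psi_succ a q i, e3]
  field_simp
  ring

theorem psi_bd {q : ℕ} {κ a : ℕ → ℝ} (h : Bar q κ a) (j : ℕ) (hjq : j < q) :
    |psi a q j| ≤ ∏ i ∈ Finset.Icc 1 j, (κ i)⁻¹ := by
  unfold psi
  rw [Finset.abs_prod]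
  refine Finset.prod_le_prod (fun i _ => abs_nonneg _) fun i hi => ?_
  rw [Finset.mem_Icc] at hi
  obtain ⟨-, h1⟩ := rat_bd h (q - i) (by omega)
  have h2 := (h1 (by omega)).1
  have e1 : q - (q - i) = i := by omega
  rwa [e1] at h2

theorem phi_zero (a : ℕ → ℝ) {q : ℕ} (hq : 1 ≤ q) : phi a q 0 = 0 := by
  unfold phi
  rw [Nat.sub_zero]
  exact psi_end _ hq

theorem phi_end (a : ℕ → ℝ) (q : ℕ) : phi a q q = 1 := by
  unfold phi
  rw [Nat.sub_self]
  exact psi_zero _ _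

theorem phi_eq {q : ℕ} {κ a : ℕ → ℝ} (h : Bar q κ a) (j : ℕ) (hj : 1 ≤ j) (hjq : j < q) :
    phi a q (j + 1) + phi a q (j - 1) + a j * phi a q j = 0 := by
  have h1 := psi_eq h.refl (q - j) (by omega) (by omega)
  have e1 : q - j + 1 = q - (j - 1) := by omega
  have e2 : q - j - 1 = q - (j + 1) := by omega
  have e3 : q - (q - j) = j := by omega
  simp only [e1, e2, e3] at h1
  unfold phi
  linarith

theorem phi_bd {q : ℕ} {κ a : ℕ → ℝ} (h : Bar q κ a) (j : ℕ) (hj : 1 ≤ j) (hjq : j ≤ q) :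
    |phi a q j| ≤ ∏ i ∈ Finset.Ico j q, (κ i)⁻¹ := by
  have h1 := psi_bd h.refl (q - j) (by omega)
  refine h1.trans (le_of_eq ?_)
  refine Finset.prod_bij' (fun i _ => q - i) (fun i _ => q - i) ?_ ?_ ?_ ?_ ?_
  · intro i hi
    rw [Finset.mem_Icc] at hi
    rw [Finset.mem_Ico]
    omega
  · intro i hi
    rw [Finset.mem_Ico] at hi
    rw [Finset.mem_Icc]
    omega
  · intro i hi
    rw [Finset.mem_Icc] at hi
    omega
  · intro i hi
    rw [Finset.mem_Ico] at hi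
    omega
  · intro i _
    rfl

/-- Wronskian -/
theorem wr {a a' x y : ℕ → ℝ} (q : ℕ) (hq : 1 ≤ q)
    (hx : ∀ j, 1 ≤ j → j < q → x (j + 1) + x (j - 1) + a j * x j = 0)
    (hy : ∀ j, 1 ≤ j → j < q → y (j + 1) + y (j - 1) + a' j * y j = 0) :
    ∑ j ∈ Finset.Ico 1 q, (a j - a' j) * (x j * y j) =
      (y 0 * x 1 - x 0 * y 1) - (y (q - 1) * x q - x (q - 1) * y q) := by
  induction q, hq using Nat.le_induction with
  | base => simp
  | succ q hq ih =>
    rw [Finset.sum_Ico_succ_top hq, ih (fun j h1 h2 => hx j h1 (by omega)) (fun j h1 h2 => hy j h1 (by omega))]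
    have h1 := hx q hq (Nat.lt_succ_self q)
    have h2 := hy q hq (Nat.lt_succ_self q)
    rw [Nat.add_sub_cancel]
    linear_combination y q * h1 - x q * h2

theorem psi_diff {q : ℕ} (hq : 1 ≤ q) {κ a a' : ℕ → ℝ} (h : Bar q κ a) (h' : Bar q κ a') :
    psi a q 1 - psi a' q 1 = ∑ j ∈ Finset.Ico 1 q, (a j - a' j) * (psi a q j * psi a' q j) := by
  rw [wr q hq (psi_eq h) (psi_eq h'), psi_zero, psi_zero, psi_end _ hq, psi_end _ hq]
  ring

theorem phi_diff {q : ℕ} (hq : 1 ≤ q) {κ a a' : ℕ → ℝ} (h : Bar q κ a) (h' : Bar q κ a') :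
    phi a q (q - 1) - phi a' q (q - 1) =
      ∑ j ∈ Finset.Ico 1 q, (a j - a' j) * (phi a q j * phi a' q j) := by
  rw [wr q hq (phi_eq h) (phi_eq h'), phi_zero _ hq, phi_zero _ hq, phi_end, phi_end]
  ring

theorem cross {q : ℕ} (hq : 1 ≤ q) {κ a : ℕ → ℝ} (h : Bar q κ a) : phi a q 1 = psi a q (q - 1) := by
  have h1 := wr q hq (phi_eq h) (psi_eq h)
  rw [phi_zero _ hq, phi_end, psi_zero, psi_end _ hq] at h1
  have h2 : ∑ j ∈ Finset.Ico 1 q, (a j - a j) * (phi a q j * psi a q j) = 0 :=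
    Finset.sum_eq_zero fun j _ => by ring
  rw [h2] at h1
  linarith

theorem cross_diff {q : ℕ} (hq : 1 ≤ q) {κ a a' : ℕ → ℝ} (h : Bar q κ a) (h' : Bar q κ a') :
    phi a q 1 - phi a' q 1 = ∑ j ∈ Finset.Ico 1 q, (a j - a' j) * (phi a q j * psi a' q j) := by
  rw [wr q hq (phi_eq h) (psi_eq h'), phi_zero _ hq, phi_end, psi_zero, psi_end _ hq, cross hq h']
  ring

end Pool.Agent.MP31f1e8.KLE
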