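import Pool.Agent.Lib.MP_31f1e8_mp.KLE.Block
import Pool.Agent.Lib.MP_31f1e8_mp.KLD.Defs

/-!
# Part E of project KL (MP_31f1e8_mp): the effective equation on the wells.
`Blk`: a quasi-periodic potential with blocks of `q` sites, site `0` of every block is the well. The effective
coefficients satisfy `KLD.Hyp`.
-/

namespace Pool.Agent.MP31f1e8.KLE

open Set KLD

/-- Hypotheses on the block potential `v n x` (`0 ≤ n < q`, `x` the phase). -/
structure Blk (c C L z1 z2 A1 A2 B1 B2 A e0 : ℝ) (q : ℕ) (v : ℕ → ℝ → ℝ) (g : ℝ → ℝ) (κ T : ℕ → ℝ) :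
    Prop where
  hc : 0 < c
  hc1 : c ≤ 1
  hC : 1 ≤ C
  hL : 192 * C * Real.exp (-(L / 2)) ≤ c
  hz1 : -1 ≤ z1
  hz2 : z2 ≤ 1
  o1 : A1 < A2
  o2 : A2 < B1
  o3 : B1 < B2
  o4 : B2 < A1 + 1
  hq : 2 ≤ q
  hA : 0 < A
  hA1 : A ≤ 1 / 4
  perv : ∀ n x, v n (x + 1) = v n x
  perg : ∀ x, g (x + 1) = g x
  v0 : ∀ x, v 0 x = e0 + A * g x
  lipg : ∀ x y, |g x - g y| ≤ C * |x - y|
  incA : ∀ x y, A1 ≤ x → x ≤ y → y ≤ A2 → c * (y - x) ≤ g y - g x
  decB : ∀ x y, B1 ≤ x → x ≤ y → y ≤ B2 → c * (y - x) ≤ g x - g y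
  top : ∀ x, A2 ≤ x → x ≤ B1 → z2 + c ≤ g x
  bot : ∀ x, B2 ≤ x → x ≤ A1 + 1 → g x ≤ z1 - c
  kap : ∀ n, 1 ≤ n → n < q → 4 ≤ κ n
  bar : ∀ n, 1 ≤ n → n < q → ∀ x E, |E - e0| ≤ 1 → κ n + 1 ≤ |v n x - E|
  lipv : ∀ n, 1 ≤ n → n < q → ∀ x y, |v n x - v n y| ≤ T n * |x - y|
  sumR : ∑ n ∈ Finset.Ico 1 q, (T n + A) * (∏ i ∈ Finset.Icc 1 n, (κ i)⁻¹) ^ 2 ≤ c / 16 * A
  sumL : ∑ n ∈ Finset.Ico 1 q, (T n + A) * (∏ i ∈ Finset.Ico n q, (κ i)⁻¹) ^ 2 ≤ c / 16 * A
  hop : ∏ i ∈ Finset.Ico 1 q, (κ i)⁻¹ ≤ c / 8 * Real.exp (-L) * A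
  hopT : (∏ i ∈ Finset.Ico 1 q, (κ i)⁻¹) * ∑ n ∈ Finset.Ico 1 q, (T n + A) ≤ C * A

/-- the sites of the block at phase `x`, energy `E` -/
def av (v : ℕ → ℝ → ℝ) (E x : ℝ) : ℕ → ℝ := fun n => v n x - E

/-- effective potential -/
noncomputable def Ff (al A E0 : ℝ) (q : ℕ) (v : ℕ → ℝ → ℝ) (z x : ℝ) : ℝ :=
  (v 0 x - (E0 + A * z) + psi (av v (E0 + A * z) x) q 1 + phi (av v (E0 + A * z) (x - al)) q (q - 1)) / A

/-- effective hopping -/
noncomputable def hf (A E0 : ℝ) (q : ℕ) (v : ℕ → ℝ → ℝ) (z x : ℝ) : ℝ :=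
  -phi (av v (E0 + A * z) x) q 1 / A

variable {c C L z1 z2 A1 A2 B1 B2 A e0 : ℝ} {q : ℕ} {v : ℕ → ℝ → ℝ} {g : ℝ → ℝ} {κ T : ℕ → ℝ}

theorem Blk.Bar (H : Blk c C L z1 z2 A1 A2 B1 B2 A e0 q v g κ T) {E : ℝ} (hE : |E - e0| ≤ 1) (x : ℝ) :
    Bar q κ (av v E x) := fun j h1 h2 =>
  ⟨by linarith [H.kap j h1 h2], H.bar j h1 h2 x E hE⟩

theorem Blk.T_nonneg (H : Blk c C L z1 z2 A1 A2 B1 B2 A e0 q v g κ T) {n : ℕ} (h1 : 1 ≤ n) (h2 : n < q) :
    0 ≤ T n := by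
  have h := H.lipv n h1 h2 1 0
  rw [sub_zero, abs_one, mul_one] at h
  exact (abs_nonneg _).trans h

private theorem prodIcc_nonneg (H : Blk c C L z1 z2 A1 A2 B1 B2 A e0 q v g κ T) {n : ℕ} (h2 : n < q) :
    0 ≤ ∏ i ∈ Finset.Icc 1 n, (κ i)⁻¹ := by
  refine Finset.prod_nonneg fun i hi => ?_
  rw [Finset.mem_Icc] at hi
  exact inv_nonneg.2 (by linarith [H.kap i hi.1 (by omega)])

private theorem prodIco_nonneg (H : Blk c C L z1 z2 A1 A2 B1 B2 A e0 q v g κ T) {n m : ℕ} (h1 : 1 ≤ n)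
    (h2 : m ≤ q) : 0 ≤ ∏ i ∈ Finset.Ico n m, (κ i)⁻¹ := by
  refine Finset.prod_nonneg fun i hi => ?_
  rw [Finset.mem_Ico] at hi
  exact inv_nonneg.2 (by linarith [H.kap i (by omega) (by omega)])

private theorem av_diff (H : Blk c C L z1 z2 A1 A2 B1 B2 A e0 q v g κ T) {E E' x x' d1 d2 : ℝ}
    (hx : |x - x'| ≤ d1) (hEE : |E - E'| ≤ A * d2) {n : ℕ} (h1 : 1 ≤ n) (h2 : n < q) :
    |av v E x n - av v E' x' n| ≤ (d1 + d2) * (T n + A) := by
  have hT := H.T_nonneg h1 h2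
  have hA := H.hA
  have d1n : 0 ≤ d1 := (abs_nonneg _).trans hx
  have d2n : 0 ≤ d2 := by
    have : 0 ≤ A * d2 := (abs_nonneg _).trans hEE
    exact nonneg_of_mul_nonneg_right this hA
  have h3 : |av v E x n - av v E' x' n| ≤ T n * d1 + A * d2 := by
    unfold av
    calc |v n x - E - (v n x' - E')| = |(v n x - v n x') - (E - E')| := by congr 1; ring
      _ ≤ |v n x - v n x'| + |E - E'| := abs_sub _ _
      _ ≤ T n * d1 + A * d2 := add_le_add ((H.lipv n h1 h2 x x').trans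
          (mul_le_mul_of_nonneg_left hx hT)) hEE
  nlinarith [mul_nonneg hT d2n, mul_nonneg hA.le d1n]

private theorem sum_bd (H : Blk c C L z1 z2 A1 A2 B1 B2 A e0 q v g κ T) {E E' x x' d1 d2 : ℝ}
    (hx : |x - x'| ≤ d1) (hEE : |E - E'| ≤ A * d2) (hd : 0 ≤ d1 + d2) (y P : ℕ → ℝ)
    (hy : ∀ n, 1 ≤ n → n < q → |y n| ≤ P n) :
    |∑ n ∈ Finset.Ico 1 q, (av v E x n - av v E' x' n) * y n| ≤
      (d1 + d2) * ∑ n ∈ Finset.Ico 1 q, (T n + A) * P n := by
  refine (Finset.abs_sum_le_sum_abs _ _).trans ?_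
  rw [Finset.mul_sum]
  refine Finset.sum_le_sum fun n hn => ?_
  rw [Finset.mem_Ico] at hn
  have h1 := av_diff H hx hEE hn.1 hn.2
  have h2 := hy n hn.1 hn.2
  have hT := H.T_nonneg hn.1 hn.2
  rw [abs_mul, ← mul_assoc]
  exact mul_le_mul h1 h2 (abs_nonneg _) (mul_nonneg hd (by linarith [H.hA]))

theorem psi_var (H : Blk c C L z1 z2 A1 A2 B1 B2 A e0 q v g κ T) {E E' x x' d1 d2 : ℝ}
    (hE : |E - e0| ≤ 1) (hE' : |E' - e0| ≤ 1) (hx : |x - x'| ≤ d1) (hEE : |E - E'| ≤ A * d2)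
    (hd : 0 ≤ d1 + d2) : |psi (av v E x) q 1 - psi (av v E' x') q 1| ≤ (d1 + d2) * (c / 16 * A) := by
  have hq : 1 ≤ q := by have := H.hq; omega
  rw [psi_diff hq (H.Bar hE x) (H.Bar hE' x')]
  refine (sum_bd H hx hEE hd _ (fun n => (∏ i ∈ Finset.Icc 1 n, (κ i)⁻¹) ^ 2) ?_).trans
    (mul_le_mul_of_nonneg_left H.sumR hd)
  intro n h1 h2
  rw [abs_mul, sq]
  exact mul_le_mul (psi_bd (H.Bar hE x) n h2) (psi_bd (H.Bar hE' x') n h2) (abs_nonneg _)
    (prodIcc_nonneg H h2)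

theorem phi_var (H : Blk c C L z1 z2 A1 A2 B1 B2 A e0 q v g κ T) {E E' x x' d1 d2 : ℝ}
    (hE : |E - e0| ≤ 1) (hE' : |E' - e0| ≤ 1) (hx : |x - x'| ≤ d1) (hEE : |E - E'| ≤ A * d2)
    (hd : 0 ≤ d1 + d2) :
    |phi (av v E x) q (q - 1) - phi (av v E' x') q (q - 1)| ≤ (d1 + d2) * (c / 16 * A) := by
  have hq : 1 ≤ q := by have := H.hq; omega
  rw [phi_diff hq (H.Bar hE x) (H.Bar hE' x')]
  refine (sum_bd H hx hEE hd _ (fun n => (∏ i ∈ Finset.Ico n q, (κ i)⁻¹) ^ 2) ?_).trans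
    (mul_le_mul_of_nonneg_left H.sumL hd)
  intro n h1 h2
  rw [abs_mul, sq]
  exact mul_le_mul (phi_bd (H.Bar hE x) n h1 h2.le) (phi_bd (H.Bar hE' x') n h1 h2.le) (abs_nonneg _)
    (prodIco_nonneg H h1 le_rfl)

theorem hop_var (H : Blk c C L z1 z2 A1 A2 B1 B2 A e0 q v g κ T) {E E' x x' d1 d2 : ℝ}
    (hE : |E - e0| ≤ 1) (hE' : |E' - e0| ≤ 1) (hx : |x - x'| ≤ d1) (hEE : |E - E'| ≤ A * d2)
    (hd : 0 ≤ d1 + d2) :
    |phi (av v E x) q 1 - phi (av v E' x') q 1| ≤ (d1 + d2) * (C * A) := by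
  have hq : 1 ≤ q := by have := H.hq; omega
  rw [cross_diff hq (H.Bar hE x) (H.Bar hE' x')]
  refine (sum_bd H hx hEE hd _ (fun _ => ∏ i ∈ Finset.Ico 1 q, (κ i)⁻¹) ?_).trans ?_
  · intro n h1 h2
    rw [abs_mul]
    have h3 := mul_le_mul (phi_bd (H.Bar hE x) n h1 h2.le) (psi_bd (H.Bar hE' x') n h2) (abs_nonneg _)
      (prodIco_nonneg H h1 le_rfl)
    refine h3.trans ?_
    have h4 : ∏ i ∈ Finset.Icc 1 n, (κ i)⁻¹ = (∏ i ∈ Finset.Ico 1 n, (κ i)⁻¹) * (κ n)⁻¹ := by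
      rw [← Finset.prod_Ico_succ_top h1]
      rfl
    rw [h4, ← Finset.prod_Ico_consecutive _ h1 h2.le]
    have h5 : (κ n)⁻¹ ≤ 1 := inv_le_one_of_one_le₀ (by linarith [H.kap n h1 h2])
    have h6 := prodIco_nonneg H (n := 1) (m := n) le_rfl h2.le
    have h7 := prodIco_nonneg H (n := n) (m := q) h1 le_rfl
    calc (∏ i ∈ Finset.Ico n q, (κ i)⁻¹) * ((∏ i ∈ Finset.Ico 1 n, (κ i)⁻¹) * (κ n)⁻¹)
        = ((∏ i ∈ Finset.Ico 1 n, (κ i)⁻¹) * ∏ i ∈ Finset.Ico n q, (κ i)⁻¹) * (κ n)⁻¹ := by ring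
      _ ≤ ((∏ i ∈ Finset.Ico 1 n, (κ i)⁻¹) * ∏ i ∈ Finset.Ico n q, (κ i)⁻¹) * 1 :=
          mul_le_mul_of_nonneg_left h5 (mul_nonneg h6 h7)
      _ = _ := mul_one _
  · rw [← Finset.sum_mul, mul_comm (∑ n ∈ Finset.Ico 1 q, (T n + A))]
    exact mul_le_mul_of_nonneg_left H.hopT hd

theorem psi_small (H : Blk c C L z1 z2 A1 A2 B1 B2 A e0 q v g κ T) {E x : ℝ} (hE : |E - e0| ≤ 1) :
    |psi (av v E x) q 1| ≤ 1 / 4 := by
  have hq := H.hq
  refine (psi_bd (H.Bar hE x) 1 (by omega)).trans ?_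
  rw [Finset.Icc_self, Finset.prod_singleton]
  have := H.kap 1 le_rfl (by omega)
  rw [inv_eq_one_div]
  exact one_div_le_one_div_of_le (by norm_num) this

theorem phi_small (H : Blk c C L z1 z2 A1 A2 B1 B2 A e0 q v g κ T) {E x : ℝ} (hE : |E - e0| ≤ 1) :
    |phi (av v E x) q (q - 1)| ≤ 1 / 4 := by
  have hq := H.hq
  refine (phi_bd (H.Bar hE x) (q - 1) (by omega) (by omega)).trans ?_
  have e : Finset.Ico (q - 1) q = {q - 1} := by
    ext i
    rw [Finset.mem_Ico, Finset.mem_singleton]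
    omega
  rw [e, Finset.prod_singleton]
  have := H.kap (q - 1) (by omega) (by omega)
  rw [inv_eq_one_div]
  exact one_div_le_one_div_of_le (by norm_num) this

/-- the self-consistent centre of the energies -/
theorem exists_E0 (H : Blk c C L z1 z2 A1 A2 B1 B2 A e0 q v g κ T) (al : ℝ) :
    ∃ E0, |E0 - e0| ≤ 1 / 2 ∧
      e0 - E0 + psi (av v E0 0) q 1 + phi (av v E0 (0 - al)) q (q - 1) = 0 := by
  have hA := H.hA
  obtain ⟨G, hG⟩ : ∃ G : ℝ → ℝ, G = fun E => E - e0 - psi (av v E 0) q 1 - phi (av v E (0 - al)) q (q - 1) :=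
    ⟨_, rfl⟩
  have hin : ∀ E ∈ Icc (e0 - 1 / 2) (e0 + 1 / 2), |E - e0| ≤ 1 := by
    intro E hE
    rw [abs_le]
    constructor <;> linarith [hE.1, hE.2]
  have hcont : ContinuousOn G (Icc (e0 - 1 / 2) (e0 + 1 / 2)) := by
    have hlip : LipschitzOnWith 2 G (Icc (e0 - 1 / 2) (e0 + 1 / 2)) := by
      refine LipschitzOnWith.of_dist_le_mul fun E hE E' hE' => ?_
      rw [Real.dist_eq, Real.dist_eq, hG]
      have e1 : |E - E'| ≤ A * (|E - E'| / A) := by rw [mul_div_cancel₀ _ hA.ne']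
      have e2 : 0 ≤ 0 + |E - E'| / A := by positivity
      have h1 := psi_var H (x := 0) (x' := 0) (d1 := 0) (hin E hE) (hin E' hE') (by simp) e1 e2
      have h2 := phi_var H (x := 0 - al) (x' := 0 - al) (d1 := 0) (hin E hE) (hin E' hE') (by simp) e1 e2
      have e3 : (0 + |E - E'| / A) * (c / 16 * A) = c / 16 * |E - E'| := by field_simp; ring
      rw [e3] at h1 h2
      have hc1 : c / 16 * |E - E'| ≤ 1 / 2 * |E - E'| :=
        mul_le_mul_of_nonneg_right (by linarith [H.hc1]) (abs_nonneg _)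
      calc |E - e0 - psi (av v E 0) q 1 - phi (av v E (0 - al)) q (q - 1) -
            (E' - e0 - psi (av v E' 0) q 1 - phi (av v E' (0 - al)) q (q - 1))|
          = |(E - E') - (psi (av v E 0) q 1 - psi (av v E' 0) q 1) -
            (phi (av v E (0 - al)) q (q - 1) - phi (av v E' (0 - al)) q (q - 1))| := by congr 1; ring
        _ ≤ |(E - E') - (psi (av v E 0) q 1 - psi (av v E' 0) q 1)| +
            |phi (av v E (0 - al)) q (q - 1) - phi (av v E' (0 - al)) q (q - 1)| := abs_sub _ _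
        _ ≤ |E - E'| + |psi (av v E 0) q 1 - psi (av v E' 0) q 1| +
            |phi (av v E (0 - al)) q (q - 1) - phi (av v E' (0 - al)) q (q - 1)| := by
          gcongr
          exact abs_sub _ _
        _ ≤ 2 * |E - E'| := by linarith
    exact hlip.continuousOn
  have hm := hin (e0 - 1 / 2) ⟨le_rfl, by linarith⟩
  have hp := hin (e0 + 1 / 2) ⟨by linarith, le_rfl⟩
  have g1 : G (e0 - 1 / 2) ≤ 0 := by
    rw [hG]
    have h1 := abs_le.1 (psi_small H (x := 0) hm)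
    have h2 := abs_le.1 (phi_small H (x := 0 - al) hm)
    linarith [h1.1, h2.1]
  have g2 : 0 ≤ G (e0 + 1 / 2) := by
    rw [hG]
    have h1 := abs_le.1 (psi_small H (x := 0) hp)
    have h2 := abs_le.1 (phi_small H (x := 0 - al) hp)
    linarith [h1.2, h2.2]
  obtain ⟨E0, hE0, h0⟩ := intermediate_value_Icc (by linarith : e0 - 1 / 2 ≤ e0 + 1 / 2) hcont ⟨g1, g2⟩
  refine ⟨E0, ?_, ?_⟩
  · rw [abs_le]
    constructor <;> linarith [hE0.1, hE0.2]
  · rw [hG] at h0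
    have h1 : E0 - e0 - psi (av v E0 0) q 1 - phi (av v E0 (0 - al)) q (q - 1) = 0 := h0
    linarith

private theorem per_Z {f : ℝ → ℝ} (hf : ∀ x, f (x + 1) = f x) (l : ℤ) (x : ℝ) : f (x - l) = f x := by
  have h : Function.Periodic f 1 := hf
  have := h.sub_int_mul_eq l (x := x)
  rwa [mul_one] at this

private theorem av_per (H : Blk c C L z1 z2 A1 A2 B1 B2 A e0 q v g κ T) (E x : ℝ) (l : ℤ) :
    av v E (x - l) = av v E x := by
  funext n
  unfold av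
  rw [per_Z (H.perv n) l x]

/-- The effective coefficients satisfy the hypotheses of part D. -/
theorem hyp (H : Blk c C L z1 z2 A1 A2 B1 B2 A e0 q v g κ T) (al : ℝ) {E0 : ℝ} (hE0 : |E0 - e0| ≤ 1 / 2)
    (h0 : e0 - E0 + psi (av v E0 0) q 1 + phi (av v E0 (0 - al)) q (q - 1) = 0) :
    Hyp (c / 2) (2 * C) L z1 z2 A1 A2 B1 B2 (Ff al A E0 q v) (hf A E0 q v) := by
  have hA := H.hA
  have hc := H.hc
  have hc1 := H.hc1
  have hC := H.hC
  have hA1 := H.hA1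
  have hEz : ∀ z ∈ Icc z1 z2, |E0 + A * z - e0| ≤ 1 := by
    intro z hz
    have h1 : |A * z| ≤ 1 / 4 := by
      rw [abs_mul, abs_of_pos hA]
      have h2 : |z| ≤ 1 := by
        rw [abs_le]
        constructor <;> linarith [hz.1, hz.2, H.hz1, H.hz2]
      nlinarith [abs_nonneg z]
    calc |E0 + A * z - e0| = |(E0 - e0) + A * z| := by congr 1; ring
      _ ≤ |E0 - e0| + |A * z| := abs_add_le _ _
      _ ≤ 1 := by linarith
  have hEd : ∀ z z' : ℝ, |E0 + A * z - (E0 + A * z')| ≤ A * |z - z'| := by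
    intro z z'
    have : E0 + A * z - (E0 + A * z') = A * (z - z') := by ring
    rw [this, abs_mul, abs_of_pos hA]
  -- `F z x = g x - z + r z x`
  obtain ⟨r, hr⟩ : ∃ r : ℝ → ℝ → ℝ, r = fun z x => Ff al A E0 q v z x - (g x - z) := ⟨_, rfl⟩
  have hFr : ∀ z x, Ff al A E0 q v z x = g x - z + r z x := by intro z x; rw [hr]; ring
  have hr2 : ∀ z x, r z x = (e0 - E0 + psi (av v (E0 + A * z) x) q 1 +
      phi (av v (E0 + A * z) (x - al)) q (q - 1)) / A := by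
    intro z x
    have e1 : r z x = Ff al A E0 q v z x - (g x - z) := by rw [hr]
    have hv := H.v0 x
    rw [e1]
    unfold Ff
    rw [hv]
    field_simp
    ring
  have hr1 : ∀ z ∈ Icc z1 z2, ∀ z' ∈ Icc z1 z2, ∀ x x', |r z x - r z' x'| ≤ c / 8 * (|x - x'| + |z - z'|) := by
    intro z hz z' hz' x x'
    have hd : 0 ≤ |x - x'| + |z - z'| := by positivity
    have h1 := psi_var H (x := x) (x' := x') (hEz z hz) (hEz z' hz') le_rfl (hEd z z') hd
    have h2 := phi_var H (x := x - al) (x' := x' - al) (hEz z hz) (hEz z' hz')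
      (le_of_eq (by congr 1; ring)) (hEd z z') hd
    have e1 : r z x - r z' x' = ((psi (av v (E0 + A * z) x) q 1 - psi (av v (E0 + A * z') x') q 1) +
        (phi (av v (E0 + A * z) (x - al)) q (q - 1) - phi (av v (E0 + A * z') (x' - al)) q (q - 1))) / A := by
      rw [hr2, hr2]; ring
    rw [e1, abs_div, abs_of_pos hA, div_le_iff₀ hA]
    refine (abs_add_le _ _).trans ?_
    calc _ ≤ (|x - x'| + |z - z'|) * (c / 16 * A) + (|x - x'| + |z - z'|) * (c / 16 * A) := add_le_add h1 h2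
      _ = c / 8 * (|x - x'| + |z - z'|) * A := by ring
  have hr0 : ∀ z ∈ Icc z1 z2, ∀ x, |r z x| ≤ c / 4 := by
    intro z hz x
    -- compare with `x = 0`, `E = E0`
    obtain ⟨l, hl⟩ : ∃ l : ℤ, |x - l| ≤ 1 := by
      refine ⟨round x, ?_⟩
      have := abs_sub_round x
      linarith
    have hz1 : |z| ≤ 1 := by
      rw [abs_le]
      constructor <;> linarith [hz.1, hz.2, H.hz1, H.hz2]
    have hE00 : |E0 - e0| ≤ 1 := by linarith
    have hEE : |E0 + A * z - E0| ≤ A * 1 := by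
      rw [add_sub_cancel_left, abs_mul, abs_of_pos hA]
      exact mul_le_mul_of_nonneg_left hz1 hA.le
    have h1 := psi_var H (x := x - l) (x' := 0) (d1 := 1) (d2 := 1) (hEz z hz) hE00 (by rwa [sub_zero])
      hEE (by norm_num)
    have h2 := phi_var H (x := x - l - al) (x' := 0 - al) (d1 := 1) (d2 := 1) (hEz z hz) hE00
      (by rw [show x - l - al - (0 - al) = x - l by ring]; exact hl) hEE (by norm_num)
    have e0' : x - l - al = x - al - l := by ring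
    rw [av_per H] at h1
    rw [e0', av_per H] at h2
    have e1 : r z x = ((psi (av v (E0 + A * z) x) q 1 - psi (av v E0 0) q 1) +
        (phi (av v (E0 + A * z) (x - al)) q (q - 1) - phi (av v E0 (0 - al)) q (q - 1))) / A := by
      rw [hr2]
      congr 1
      linear_combination h0
    rw [e1, abs_div, abs_of_pos hA, div_le_iff₀ hA]
    refine (abs_add_le _ _).trans ?_
    calc _ ≤ (1 + 1) * (c / 16 * A) + (1 + 1) * (c / 16 * A) := add_le_add h1 h2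
      _ = c / 4 * A := by ring
  refine ⟨by linarith, by linarith, ?_, ?_, H.o1, H.o2, H.o3, H.o4, ?_, ?_, ?_, ?_, ?_, ?_, ?_, ?_, ?_, ?_⟩
  · have := H.hL
    linarith
  · have h1 := H.hL
    have h2 : 192 * 1 * Real.exp (-(L / 2)) ≤ 192 * C * Real.exp (-(L / 2)) := by gcongr
    linarith
  · intro z x
    unfold Ff
    have e1 : x + 1 - al = x - al + 1 := by ring
    have e2 : av v (E0 + A * z) (x + 1) = av v (E0 + A * z) x := by
      funext n; unfold av; rw [H.perv]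
    have e3 : av v (E0 + A * z) (x - al + 1) = av v (E0 + A * z) (x - al) := by
      funext n; unfold av; rw [H.perv]
    rw [e1, e2, e3, H.perv]
  · intro z x
    unfold hf
    have e2 : av v (E0 + A * z) (x + 1) = av v (E0 + A * z) x := by
      funext n; unfold av; rw [H.perv]
    rw [e2]
  · intro z hz z' hz' x x'
    rw [hFr, hFr]
    have h1 := hr1 z hz z' hz' x x'
    have h2 := H.lipg x x'
    calc |g x - z + r z x - (g x' - z' + r z' x')| = |(g x - g x') - (z - z') + (r z x - r z' x')| := by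
          congr 1; ring
      _ ≤ |(g x - g x') - (z - z')| + |r z x - r z' x'| := abs_add_le _ _
      _ ≤ |g x - g x'| + |z - z'| + |r z x - r z' x'| := by gcongr; exact abs_sub _ _
      _ ≤ C * |x - x'| + |z - z'| + c / 8 * (|x - x'| + |z - z'|) := by gcongr
      _ ≤ 2 * C * (|x - x'| + |z - z'|) := by
        nlinarith [abs_nonneg (x - x'), abs_nonneg (z - z')]
  · intro z hz z' hz' x x'
    unfold hf
    have h1 := hop_var H (x := x) (x' := x') (hEz z hz) (hEz z' hz') le_rfl (hEd z z') (by positivity)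
    have e1 : -phi (av v (E0 + A * z) x) q 1 / A - -phi (av v (E0 + A * z') x') q 1 / A =
        -(phi (av v (E0 + A * z) x) q 1 - phi (av v (E0 + A * z') x') q 1) / A := by ring
    rw [e1, abs_div, abs_neg, abs_of_pos hA, div_le_iff₀ hA]
    refine h1.trans ?_
    nlinarith [mul_nonneg (mul_nonneg (by linarith : (0 : ℝ) ≤ C) (by positivity : 0 ≤ |x - x'| + |z - z'|)) hA.le]
  · intro z hz x
    unfold hf
    have hq := H.hq
    have h1 := (phi_bd (H.Bar (hEz z hz) x) 1 le_rfl (by omega)).trans H.hop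
    rw [abs_div, abs_neg, abs_of_pos hA, div_le_iff₀ hA]
    refine h1.trans (le_of_eq ?_)
    ring
  · intro z z' hz hzz hz' x
    rw [hFr, hFr]
    have h1 := hr1 z ⟨hz, hzz.trans hz'⟩ z' ⟨hz.trans hzz, hz'⟩ x x
    rw [sub_self, abs_zero, zero_add, abs_sub_comm z z', abs_of_nonneg (sub_nonneg.2 hzz)] at h1
    have h2 := (abs_le.1 h1).1
    nlinarith [sub_nonneg.2 hzz]
  · intro z hz x y hx hxy hy
    rw [hFr, hFr]
    have h1 := hr1 z hz z hz y x
    rw [sub_self, abs_zero, add_zero, abs_of_nonneg (sub_nonneg.2 hxy)] at h1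
    have h2 := (abs_le.1 h1).1
    have h3 := H.incA x y hx hxy hy
    nlinarith [mul_nonneg hc.le (sub_nonneg.2 hxy)]
  · intro z hz x y hx hxy hy
    rw [hFr, hFr]
    have h1 := hr1 z hz z hz x y
    rw [sub_self, abs_zero, add_zero, abs_sub_comm x y, abs_of_nonneg (sub_nonneg.2 hxy)] at h1
    have h2 := (abs_le.1 h1).1
    have h3 := H.decB x y hx hxy hy
    nlinarith [mul_nonneg hc.le (sub_nonneg.2 hxy)]
  · intro z hz x hx hx'
    rw [hFr]
    have h1 := (abs_le.1 (hr0 z hz x)).1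
    have h2 := H.top x hx hx'
    linarith [hz.2]
  · intro z hz x hx hx'
    rw [hFr]
    have h1 := (abs_le.1 (hr0 z hz x)).2
    have h2 := H.bot x hx hx'
    linarith [hz.1]

end Pool.Agent.MP31f1e8.KLE
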