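import Pool.Agent.Lib.MP_31f1e8_mp.KLE.Recon
import Pool.Agent.Lib.MP_31f1e8_mp.KLD.Main

/-!
# Part E of project KL (MP_31f1e8_mp): abstract localisation theorem for block potentials.
-/

namespace Pool.Agent.MP31f1e8.KLE

open Set KLD MeasureTheory

/-- Quasi-periodic potential with blocks of `q` sites `v n (x + k al)` (`k` the block, `0 ≤ n < q`), the site `0`
being a well with two monotone branches and the other sites barriers (`Blk`): for the phases `x` of a closed set `K` of measure at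
least `c / (32 C) len` in the arc `[A1, A2]` there is an exponentially decaying solution at some energy. -/
theorem red {c C gam len : ℝ} (hc : 0 < c) (hC : c ≤ C) (hg : 0 < gam) (hlen : 0 < len) :
    ∃ L0 : ℝ, 0 < L0 ∧ (∀ L, L0 ≤ L → 192 * C * Real.exp (-(L / 2)) ≤ c) ∧
      ∀ L, L0 ≤ L → ∀ al, Dio gam al → ∀ (z1 z2 A1 A2 B1 B2 A e0 : ℝ) (q : ℕ) (v : ℕ → ℝ → ℝ) (g : ℝ → ℝ)
        (κ T : ℕ → ℝ), z2 - z1 = len → Blk c C L z1 z2 A1 A2 B1 B2 A e0 q v g κ T →
        ∃ K : Set ℝ, IsClosed K ∧ ENNReal.ofReal (c / (32 * C) * len) ≤ volume (K ∩ Icc A1 A2) ∧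
          ∀ x ∈ K, ∃ E, |E - e0| ≤ 1 ∧ ∃ w : ℤ → ℝ, w 0 = 1 ∧
            (∀ m : ℤ, |w m| ≤ 2 * Real.exp (L / 2) * Real.exp (-(L / (2 * q) * |(m : ℝ)|))) ∧
            ∀ (k : ℤ) (n : ℕ), n < q →
              w (k * q + n + 1) + w (k * q + n - 1) + (v n (x + k * al) - E) * w (k * q + n) = 0 := by
  have hC0 : 0 < C := hc.trans_le hC
  obtain ⟨L1, hL1, hmain⟩ := KLD.main (c := c / 2) (C := 2 * C) (gam := gam) (len := len) (by linarith)
    (by linarith) hg hlen
  obtain ⟨L2, hL2⟩ : ∃ L2 : ℝ, ∀ L, L2 ≤ L → 192 * C * Real.exp (-(L / 2)) ≤ c := by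
    refine ⟨2 * Real.log (192 * C / c), fun L hL => ?_⟩
    have hp : 0 < 192 * C / c := by positivity
    have h1 : 192 * C / c ≤ Real.exp (L / 2) := by
      rw [← Real.log_le_iff_le_exp hp]
      linarith
    rw [Real.exp_neg, ← div_eq_mul_inv, div_le_iff₀ (Real.exp_pos _)]
    rw [div_le_iff₀ hc] at h1
    linarith
  refine ⟨max L1 L2, lt_max_of_lt_left hL1, fun L hL => hL2 L ((le_max_right _ _).trans hL), ?_⟩
  intro L hL al hal z1 z2 A1 A2 B1 B2 A e0 q v g κ T hz H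
  have hLpos : 0 < L := hL1.trans_le ((le_max_left _ _).trans hL)
  obtain ⟨E0, hE0, h0⟩ := exists_E0 H al
  have hyp := hyp H al hE0 h0
  obtain ⟨hcl, hvol⟩ := hmain L ((le_max_left _ _).trans hL) al hal z1 z2 A1 A2 B1 B2 _ _ hz hyp
  refine ⟨_, hcl, ?_, ?_⟩
  · refine le_of_eq_of_le ?_ hvol
    congr 2
    field_simp
    ring
  · rintro x ⟨z, hz, u, hu0, hu, hJ⟩
    have hA := H.hA
    have hA1 := H.hA1
    have hE : |E0 + A * z - e0| ≤ 1 := by
      have h1 : |A * z| ≤ 1 / 4 := by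
        rw [abs_mul, abs_of_pos hA]
        have h2 : |z| ≤ 1 := by
          rw [abs_le]
          constructor <;> linarith [hz.1, hz.2, H.hz1, H.hz2]
        nlinarith [abs_nonneg z]
      calc |E0 + A * z - e0| = |(E0 - e0) + A * z| := by congr 1; ring
        _ ≤ |E0 - e0| + |A * z| := abs_add_le _ _
        _ ≤ 1 := by linarith
    obtain ⟨w, hw0, hw, hweq⟩ := recon H hE hLpos.le hu0 hu hJ
    exact ⟨E0 + A * z, hE, w, hw0, hw, hweq⟩

end Pool.Agent.MP31f1e8.KLE
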