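import Pool.Agent.Lib.MP_31f1e8_mp.KLE.Coef

/-!
# Part E of project KL (MP_31f1e8_mp): from a solution on the wells to a solution on all sites.
-/

namespace Pool.Agent.MP31f1e8.KLE

open Set KLD

/-- value at the site `n` of the block `k` -/
noncomputable def Wb (a : ℤ → ℕ → ℝ) (q : ℕ) (u : ℤ → ℝ) (k : ℤ) (n : ℕ) : ℝ :=
  u k * psi (a k) q n + u (k + 1) * phi (a k) q n

/-- the reconstructed solution -/
noncomputable def wrec (a : ℤ → ℕ → ℝ) (q : ℕ) (u : ℤ → ℝ) (m : ℤ) : ℝ :=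
  Wb a q u (m / q) (m % q).toNat

theorem wval (a : ℤ → ℕ → ℝ) {q : ℕ} (hq : 1 ≤ q) (u : ℤ → ℝ) (k : ℤ) {n : ℕ} (hn : n ≤ q) :
    wrec a q u (k * q + n) = Wb a q u k n := by
  have hq0 : (0 : ℤ) < q := by exact_mod_cast hq
  rcases hn.lt_or_eq with h | rfl
  · unfold wrec
    have hn0 : (0 : ℤ) ≤ n := by positivity
    have hnq : (n : ℤ) < q := by exact_mod_cast h
    have e1 : (k * q + n) / (q : ℤ) = k := by
      rw [Int.add_comm, Int.add_mul_ediv_right _ _ hq0.ne', Int.ediv_eq_zero_of_lt hn0 hnq, zero_add]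
    have e2 : (k * q + n) % (q : ℤ) = n := by
      rw [Int.add_comm, Int.add_mul_emod_self_right, Int.emod_eq_of_lt hn0 hnq]
    rw [e1, e2, Int.toNat_natCast]
  · unfold wrec
    have e0 : k * (n : ℤ) + n = (k + 1) * n := by ring
    have e1 : (k + 1) * (n : ℤ) / n = k + 1 := Int.mul_ediv_cancel _ hq0.ne'
    have e2 : (k + 1) * (n : ℤ) % n = 0 := Int.mul_emod_left _ _
    rw [e0, e1, e2]
    unfold Wb
    rw [Int.toNat_zero, psi_zero, phi_zero _ hq, psi_end _ hq, phi_end]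
    ring

theorem wrec_eq {a : ℤ → ℕ → ℝ} {κ : ℕ → ℝ} {q : ℕ} (hq : 2 ≤ q) {u : ℤ → ℝ}
    (hb : ∀ k, Bar q κ (a k))
    (he : ∀ k : ℤ, (a k 0 + psi (a k) q 1 + phi (a (k - 1)) q (q - 1)) * u k + phi (a k) q 1 * u (k + 1) +
      phi (a (k - 1)) q 1 * u (k - 1) = 0) (k : ℤ) {n : ℕ} (hn : n < q) :
    wrec a q u (k * q + n + 1) + wrec a q u (k * q + n - 1) + a k n * wrec a q u (k * q + n) = 0 := by
  have hq1 : 1 ≤ q := by omega
  rcases Nat.eq_zero_or_pos n with rfl | h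
  · have e1 : k * (q : ℤ) + (0 : ℕ) + 1 = k * q + (1 : ℕ) := by push_cast; ring
    have e2 : k * (q : ℤ) + (0 : ℕ) - 1 = (k - 1) * q + ((q - 1 : ℕ) : ℤ) := by
      rw [Nat.cast_sub hq1]; push_cast; ring
    rw [e1, e2, wval a hq1 u k hq1, wval a hq1 u (k - 1) (Nat.sub_le q 1), wval a hq1 u k (Nat.zero_le q)]
    unfold Wb
    rw [psi_zero, phi_zero _ hq1, sub_add_cancel, ← cross hq1 (hb (k - 1))]
    linear_combination he k
  · have e1 : k * (q : ℤ) + n + 1 = k * q + ((n + 1 : ℕ) : ℤ) := by push_cast; ring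
    have e2 : k * (q : ℤ) + n - 1 = k * q + ((n - 1 : ℕ) : ℤ) := by
      rw [Nat.cast_sub h]; push_cast; ring
    rw [e1, e2, wval a hq1 u k (by omega : n + 1 ≤ q), wval a hq1 u k (by omega : n - 1 ≤ q),
      wval a hq1 u k hn.le]
    unfold Wb
    have h1 := psi_eq (hb k) n h hn
    have h2 := phi_eq (hb k) n h hn
    linear_combination u k * h1 + u (k + 1) * h2

theorem psi_le_one {q : ℕ} {κ a : ℕ → ℝ} (h : Bar q κ a) {j : ℕ} (hj : j ≤ q) : |psi a q j| ≤ 1 := by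
  rcases hj.lt_or_eq with h1 | rfl
  · refine (psi_bd h j h1).trans (Finset.prod_le_one (fun i hi => ?_) fun i hi => ?_)
    · rw [Finset.mem_Icc] at hi
      exact inv_nonneg.2 (by linarith [(h i hi.1 (by omega)).1])
    · rw [Finset.mem_Icc] at hi
      exact inv_le_one_of_one_le₀ (h i hi.1 (by omega)).1
  · rcases Nat.eq_zero_or_pos j with rfl | h1
    · rw [psi_zero, abs_one]
    · rw [psi_end _ h1, abs_zero]
      exact zero_le_one

theorem phi_le_one {q : ℕ} {κ a : ℕ → ℝ} (h : Bar q κ a) (j : ℕ) : |phi a q j| ≤ 1 :=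
  psi_le_one h.refl (Nat.sub_le q j)

theorem wrec_bd {a : ℤ → ℕ → ℝ} {κ : ℕ → ℝ} {q : ℕ} (hq : 2 ≤ q) {u : ℤ → ℝ} {L : ℝ} (hL : 0 ≤ L)
    (hb : ∀ k, Bar q κ (a k)) (hu : ∀ m : ℤ, |u m| ≤ Real.exp (-(L / 2 * |(m : ℝ)|))) (m : ℤ) :
    |wrec a q u m| ≤ 2 * Real.exp (L / 2) * Real.exp (-(L / (2 * q) * |(m : ℝ)|)) := by
  have hq0 : (0 : ℤ) < q := by exact_mod_cast (by omega : 0 < q)
  have hqR : (0 : ℝ) < q := by exact_mod_cast (by omega : 0 < q)
  obtain ⟨k, hk⟩ : ∃ k : ℤ, k = m / q := ⟨_, rfl⟩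
  obtain ⟨n, hn⟩ : ∃ n : ℕ, n = (m % q).toNat := ⟨_, rfl⟩
  have hn1 : (n : ℤ) = m % q := by rw [hn, Int.toNat_of_nonneg (Int.emod_nonneg _ hq0.ne')]
  have hn2 : (n : ℤ) < q := by rw [hn1]; exact Int.emod_lt_of_pos _ hq0
  have hn3 : n < q := by exact_mod_cast hn2
  have hm : m = k * q + n := by
    rw [hk, hn1, mul_comm]
    exact (Int.mul_ediv_add_emod m q).symm
  have hmR : (m : ℝ) = k * q + n := by exact_mod_cast congrArg (Int.cast : ℤ → ℝ) hm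
  have hnR : (n : ℝ) ≤ q := by exact_mod_cast hn3.le
  have hnR0 : (0 : ℝ) ≤ n := by positivity
  have b1 : |(m : ℝ)| / q - 1 ≤ |(k : ℝ)| := by
    rw [sub_le_iff_le_add, div_le_iff₀ hqR, hmR]
    calc |(k : ℝ) * q + n| ≤ |(k : ℝ) * q| + |(n : ℝ)| := abs_add_le _ _
      _ = |(k : ℝ)| * q + n := by rw [abs_mul, abs_of_pos hqR, abs_of_nonneg hnR0]
      _ ≤ (|(k : ℝ)| + 1) * q := by linarith
  have b2 : |(m : ℝ)| / q - 1 ≤ |((k + 1 : ℤ) : ℝ)| := by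
    rw [sub_le_iff_le_add, div_le_iff₀ hqR, hmR]
    push_cast
    calc |(k : ℝ) * q + n| = |((k : ℝ) + 1) * q - (q - n)| := by congr 1; ring
      _ ≤ |((k : ℝ) + 1) * q| + |(q : ℝ) - n| := abs_sub _ _
      _ = |(k : ℝ) + 1| * q + (q - n) := by
        rw [abs_mul, abs_of_pos hqR, abs_of_nonneg (sub_nonneg.2 hnR)]
      _ ≤ (|(k : ℝ) + 1| + 1) * q := by linarith
  have hexp : ∀ t : ℝ, |(m : ℝ)| / q - 1 ≤ t →
      Real.exp (-(L / 2 * t)) ≤ Real.exp (L / 2) * Real.exp (-(L / (2 * q) * |(m : ℝ)|)) := by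
    intro t ht
    rw [← Real.exp_add]
    refine Real.exp_le_exp.2 ?_
    have h1 : L / 2 * (|(m : ℝ)| / q - 1) ≤ L / 2 * t := mul_le_mul_of_nonneg_left ht (by linarith)
    have h2 : L / 2 * (|(m : ℝ)| / q - 1) = L / (2 * q) * |(m : ℝ)| - L / 2 := by field_simp
    linarith
  have h0 : wrec a q u m = Wb a q u k n := by rw [hm]; exact wval a (by omega) u k hn3.le
  rw [h0]
  unfold Wb
  have h1 := (hu k).trans (hexp _ b1)
  have h2 := (hu (k + 1)).trans (hexp _ b2)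
  have h3 := psi_le_one (hb k) hn3.le
  have h4 := phi_le_one (hb k) n
  calc |u k * psi (a k) q n + u (k + 1) * phi (a k) q n|
      ≤ |u k * psi (a k) q n| + |u (k + 1) * phi (a k) q n| := abs_add_le _ _
    _ = |u k| * |psi (a k) q n| + |u (k + 1)| * |phi (a k) q n| := by rw [abs_mul, abs_mul]
    _ ≤ |u k| * 1 + |u (k + 1)| * 1 := by gcongr
    _ ≤ _ := by linarith

/-- effective solution on the wells: solution of the original equation on all sites -/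
theorem recon {c C L z1 z2 A1 A2 B1 B2 A e0 : ℝ} {q : ℕ} {v : ℕ → ℝ → ℝ} {g : ℝ → ℝ} {κ T : ℕ → ℝ}
    (H : Blk c C L z1 z2 A1 A2 B1 B2 A e0 q v g κ T) {al E0 z x : ℝ} (hE : |E0 + A * z - e0| ≤ 1)
    (hL : 0 ≤ L) {u : ℤ → ℝ} (hu0 : u 0 = 1) (hu : ∀ m : ℤ, |u m| ≤ Real.exp (-(L / 2 * |(m : ℝ)|)))
    (hJ : ∀ m : ℤ, Jop al (Ff al A E0 q v z) (hf A E0 q v z) x u m = 0) :
    ∃ w : ℤ → ℝ, w 0 = 1 ∧
      (∀ m : ℤ, |w m| ≤ 2 * Real.exp (L / 2) * Real.exp (-(L / (2 * q) * |(m : ℝ)|))) ∧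
      ∀ (k : ℤ) (n : ℕ), n < q →
        w (k * q + n + 1) + w (k * q + n - 1) + (v n (x + k * al) - (E0 + A * z)) * w (k * q + n) = 0 := by
  obtain ⟨a, ha⟩ : ∃ a : ℤ → ℕ → ℝ, a = fun k : ℤ => av v (E0 + A * z) (x + k * al) := ⟨_, rfl⟩
  have hb : ∀ k, Bar q κ (a k) := by
    intro k
    rw [ha]
    exact H.Bar hE _
  have hA := H.hA
  refine ⟨wrec a q u, ?_, wrec_bd H.hq hL hb hu, ?_⟩
  · have h := wval a (by have := H.hq; omega : 1 ≤ q) u 0 (Nat.zero_le q)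
    have e : (0 : ℤ) * q + (0 : ℕ) = 0 := by push_cast; ring
    rw [e] at h
    rw [h]
    unfold Wb
    rw [psi_zero, phi_zero _ (by have := H.hq; omega : 1 ≤ q), hu0]
    ring
  · intro k n hn
    have h := wrec_eq H.hq (u := u) hb ?_ k hn
    · rw [← h, ha]
      rfl
    · intro j
      have h1 := hJ j
      unfold Jop Ff hf at h1
      have e1 : x + (j : ℝ) * al - al = x + ((j - 1 : ℤ) : ℝ) * al := by push_cast; ring
      have e2 : x + ((j : ℝ) - 1) * al = x + ((j - 1 : ℤ) : ℝ) * al := by push_cast; ring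
      rw [e1, e2] at h1
      have h2 : a j = av v (E0 + A * z) (x + j * al) := by rw [ha]
      have h3 : a (j - 1) = av v (E0 + A * z) (x + ((j - 1 : ℤ) : ℝ) * al) := by rw [ha]
      rw [← h2, ← h3] at h1
      have h4 : a j 0 = v 0 (x + j * al) - (E0 + A * z) := by rw [ha]; rfl
      rw [h4]
      field_simp at h1
      linear_combination h1
end Pool.Agent.MP31f1e8.KLE
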